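import Pool.Agent.H37.HH.Targets4
import Pool.Agent.H92.RC.ID

/-!
# Sums over the ideals, class by class
-/

set_option autoImplicit false

open NumberField Complex Filter Topology MeasureTheory
open scoped ContDiff nonZeroDivisors

namespace Pool.Agent.H78.HH

open Pool.Agent.H33.HH Pool.Agent.H28.RC Pool.Agent.H37.CV Pool.Agent.H25.HK

section

variable {K : Type} [Field K] [NumberField K]

/-- an ideal in the inverse class -/
noncomputable def ja (i : ClassGroup (𝓞 K)) : (Ideal (𝓞 K))⁰ :=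
  (ClassGroup.mk0_surjective (i⁻¹)).choose

lemma ja_spec (i : ClassGroup (𝓞 K)) : ClassGroup.mk0 (ja i) = i⁻¹ :=
  (ClassGroup.mk0_surjective (i⁻¹)).choose_spec

/-- the fractional ideal -/
noncomputable def jf (i : ClassGroup (𝓞 K)) : FractionalIdeal (𝓞 K)⁰ K :=
  (((ja i : (Ideal (𝓞 K))⁰) : Ideal (𝓞 K)) : FractionalIdeal (𝓞 K)⁰ K)

lemma jf_ne (i : ClassGroup (𝓞 K)) : jf i ≠ 0 :=
  FractionalIdeal.coeIdeal_ne_zero.mpr (nonZeroDivisors.ne_zero (ja i).2)

/-- the nonzero elements of the ideals -/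
abbrev YY (K : Type) [Field K] [NumberField K] : Type :=
  Σ i : ClassGroup (𝓞 K), {x : K // x ∈ jf i ∧ x ≠ 0}

lemma idl_ne (i : ClassGroup (𝓞 K)) (x : K) (hx : x ∈ jf i) (h0 : x ≠ 0) :
    idl K (jf i) x ≠ ⊥ := by
  intro h
  have h1 := (Pool.Agent.H92.RC.pf_ID K (jf i) (jf_ne i)).2.2.2.1 x hx
  exact h0 (h1.mp h)

/-- the ideal of an element -/
noncomputable def phi (y : YY K) : NI K :=
  ⟨idl K (jf y.1) y.2.1, idl_ne y.1 y.2.1 y.2.2.1 y.2.2.2⟩

/-- the class of an ideal -/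
noncomputable def cl (l : NI K) : ClassGroup (𝓞 K) :=
  ClassGroup.mk0 ⟨l.1, mem_nonZeroDivisors_of_ne_zero l.2⟩

lemma exists_gen (l : NI K) : ∃ g : 𝓞 K, l.1 * (ja (cl l) : Ideal (𝓞 K)) = Ideal.span {g} := by
  have h1 : ClassGroup.mk0 ((⟨l.1, mem_nonZeroDivisors_of_ne_zero l.2⟩ : (Ideal (𝓞 K))⁰) *
      ja (cl l)) = 1 := by
    rw [map_mul, ja_spec]
    exact mul_inv_cancel (cl l)
  rw [ClassGroup.mk0_eq_one_iff] at h1
  obtain ⟨g, hg⟩ := h1
  exact ⟨g, hg⟩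

/-- a generator -/
noncomputable def gen (l : NI K) : 𝓞 K := (exists_gen l).choose

lemma gen_spec (l : NI K) : l.1 * (ja (cl l) : Ideal (𝓞 K)) = Ideal.span {gen l} :=
  (exists_gen l).choose_spec

lemma gen_ne (l : NI K) : gen l ≠ 0 := by
  intro h
  have h1 := gen_spec l
  rw [h] at h1
  have h2 : l.1 * (ja (cl l) : Ideal (𝓞 K)) = ⊥ := by
    rw [h1]; exact Ideal.span_singleton_eq_bot.mpr rfl
  rcases Ideal.mul_eq_bot.mp h2 with h3 | h3
  · exact l.2 h3
  · exact nonZeroDivisors.ne_zero (ja (cl l)).2 h3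

lemma gen_mul (l : NI K) (u : (𝓞 K)ˣ) :
    (l.1 : FI K) * jf (cl l) = FractionalIdeal.spanSingleton (𝓞 K)⁰ ((u : 𝓞 K) * gen l : K) := by
  unfold jf
  rw [← FractionalIdeal.coeIdeal_mul, gen_spec]
  have h1 : Ideal.span {gen l} = Ideal.span {(u : 𝓞 K) * gen l} := by
    rw [Ideal.span_singleton_mul_left_unit u.isUnit]
  rw [h1, Pool.Agent.H92.RC.coe_span]
  push_cast
  rfl

lemma gen_mem (l : NI K) (u : (𝓞 K)ˣ) : ((u : 𝓞 K) * gen l : K) ∈ jf (cl l) := by
  have h1 : ((u : 𝓞 K) * gen l) ∈ (ja (cl l) : Ideal (𝓞 K)) := by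
    have h2 : gen l ∈ l.1 * (ja (cl l) : Ideal (𝓞 K)) := by
      rw [gen_spec]; exact Ideal.mem_span_singleton_self _
    exact Ideal.mul_mem_left _ _ (Ideal.mul_le_right h2)
  have h3 := FractionalIdeal.mem_coeIdeal_of_mem (𝓞 K)⁰ (P := K) h1
  unfold jf
  rw [map_mul] at h3
  exact h3

/-- the element of an ideal and a unit -/
noncomputable def ee (p : NI K × (𝓞 K)ˣ) : YY K :=
  ⟨cl p.1, ⟨((p.2 : 𝓞 K) * gen p.1 : K), gen_mem p.1 p.2, by
    refine mul_ne_zero ?_ ?_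
    · exact fun h => p.2.isUnit.ne_zero (RingOfIntegers.coe_eq_zero_iff.mp h)
    · exact fun h => gen_ne p.1 (RingOfIntegers.coe_eq_zero_iff.mp h)⟩⟩

lemma phi_ee (p : NI K × (𝓞 K)ˣ) : phi (ee p) = p.1 := by
  refine Subtype.ext ?_
  exact Pool.Agent.H92.RC.idl_unique (jf (cl p.1)) (jf_ne _) p.1.1 _ (gen_mul p.1 p.2)

lemma cl_of (i : ClassGroup (𝓞 K)) (l : NI K) (x : K) (hx : x ∈ jf i)
    (h : (l.1 : FI K) * jf i = FractionalIdeal.spanSingleton (𝓞 K)⁰ x) : cl l = i := by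
  unfold jf at hx h
  obtain ⟨a, ha, hax⟩ := (FractionalIdeal.mem_coeIdeal (𝓞 K)⁰).mp hx
  rw [← FractionalIdeal.coeIdeal_mul, ← hax] at h
  have h1 : l.1 * (ja i : Ideal (𝓞 K)) = Ideal.span {a} := by
    refine FractionalIdeal.coeIdeal_injective (K := K) ?_
    exact h.trans (FractionalIdeal.coeIdeal_span_singleton a).symm
  have h2 : ClassGroup.mk0 ((⟨l.1, mem_nonZeroDivisors_of_ne_zero l.2⟩ : (Ideal (𝓞 K))⁰) *
      ja i) = 1 := by
    rw [ClassGroup.mk0_eq_one_iff]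
    exact ⟨a, h1⟩
  rw [map_mul, ja_spec] at h2
  exact mul_inv_eq_one.mp h2

lemma ee_bij : Function.Bijective (ee (K := K)) := by
  constructor
  · intro p q h
    have h1 : p.1 = q.1 := by rw [← phi_ee p, ← phi_ee q, h]
    obtain ⟨l, u⟩ := p
    obtain ⟨l', v⟩ := q
    subst h1
    have h2 : ((u : 𝓞 K) * gen l : K) = ((v : 𝓞 K) * gen l : K) := by
      have h3 := congrArg (fun y : YY K => y.2.1) h
      exact h3
    have h4 : (u : 𝓞 K) * gen l = (v : 𝓞 K) * gen l := by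
      refine RingOfIntegers.coe_injective ?_
      push_cast
      exact h2
    have h5 := mul_right_cancel₀ (gen_ne l) h4
    have h6 : u = v := Units.ext h5
    rw [h6]
  · rintro ⟨i, ⟨x, hx, h0⟩⟩
    have h1 := Pool.Agent.H92.RC.idl_mul (jf i) (jf_ne i) hx
    set l : NI K := ⟨idl K (jf i) x, idl_ne i x hx h0⟩ with hl
    have h2 : cl l = i := cl_of i l x hx h1
    have h3 := gen_mul l 1
    rw [h2] at h3
    have h4 : FractionalIdeal.spanSingleton (𝓞 K)⁰ x =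
        FractionalIdeal.spanSingleton (𝓞 K)⁰ ((gen l : 𝓞 K) : K) := by
      rw [← h1]
      have h5 := h3
      simp only [Units.val_one, map_one, one_mul] at h5
      exact h5
    have h6 : ∃ u : (𝓞 K)ˣ, u • ((gen l : 𝓞 K) : K) = x :=
      FractionalIdeal.spanSingleton_eq_spanSingleton.mp h4.symm
    obtain ⟨u, hu⟩ := h6
    refine ⟨(l, u), ?_⟩
    have hu' : ((u : 𝓞 K) * gen l : K) = x := by rw [← hu]; rfl
    unfold ee
    clear_value l
    subst h2
    refine Sigma.ext rfl ?_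
    exact heq_of_eq (Subtype.ext hu')

lemma phi_bij (F : Ideal (𝓞 K) → ℂ) [Finite (𝓞 K)ˣ] (b : ℝ) (hb : ∀ I, b ≤ nm I → F I = 0) :
    Summable (fun y : YY K => F (phi y).1) ∧
      ∑' y : YY K, F (phi y).1 = ((wu K : ℝ) : ℂ) * ∑' l : NI K, F l.1 := by
  classical
  have : Fintype (𝓞 K)ˣ := Fintype.ofFinite _
  set e : NI K × (𝓞 K)ˣ ≃ YY K := Equiv.ofBijective ee ee_bij with he
  have h1 : ∀ p, F (phi (e p)).1 = F p.1.1 := by
    intro p
    rw [he, Equiv.ofBijective_apply, phi_ee]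
  have hfin : {I : Ideal (𝓞 K) | F I ≠ 0}.Finite := by
    refine (Ideal.finite_setOfPred_absNorm_le (S := 𝓞 K) ⌈b⌉₊).subset ?_
    intro I hI
    by_contra h
    refine hI (hb I ?_)
    simp only [Set.mem_ofPred_eq, not_le] at h
    unfold nm
    exact (Nat.le_ceil b).trans (by exact_mod_cast h.le)
  have hfin2 : {l : NI K | F l.1 ≠ 0}.Finite :=
    hfin.preimage (f := fun l : NI K => l.1) Subtype.val_injective.injOn
  have h2 : Summable (fun p : NI K × (𝓞 K)ˣ => F p.1.1) := by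
    refine summable_of_hasFiniteSupport ?_
    refine (hfin2.prod (Set.finite_univ (α := (𝓞 K)ˣ))).subset ?_
    intro p hp
    exact ⟨hp, trivial⟩
  have h3 : Summable (fun y : YY K => F (phi y).1) := by
    rw [← e.summable_iff]
    exact h2.congr fun p => (h1 p).symm
  refine ⟨h3, ?_⟩
  rw [← e.tsum_eq, tsum_congr h1, h2.tsum_prod' (fun l => (hasSum_fintype _).summable)]
  rw [← tsum_mul_left]
  refine tsum_congr fun l => ?_
  rw [tsum_fintype]
  change ∑ _b : (𝓞 K)ˣ, F l.1 = _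
  rw [Finset.sum_const, Finset.card_univ, nsmul_eq_mul]
  unfold wu
  rw [Nat.card_eq_fintype_card]
  push_cast
  rfl

end

theorem pf_CLS (hNRM : T_NRM) : Pool.Agent.H33.HH.T_CLS := by
  intro K _ _ _
  obtain ⟨h1, h2, h3, h4, h5, h6, h7⟩ := hNRM K
  have := h3
  refine ⟨jf, jf_ne, ?_, ?_⟩
  · intro i x hx
    have h8 := Pool.Agent.H92.RC.idl_mul (jf i) (jf_ne i) hx
    have h9 := congrArg FractionalIdeal.absNorm h8
    rw [map_mul, FractionalIdeal.coeIdeal_absNorm, FractionalIdeal.absNorm_span_singleton] at h9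
    have h10 : FractionalIdeal.absNorm (jf i) ≠ 0 := by
      rw [Ne, FractionalIdeal.absNorm_eq_zero_iff]
      exact jf_ne i
    have h11 : ((FractionalIdeal.absNorm (jf i) : ℚ) : ℝ) ≠ 0 := by exact_mod_cast h10
    rw [h5 x, eq_div_iff h11, ← h9]
    unfold nm
    push_cast
    rfl
  · rintro F ⟨b, hb⟩
    obtain ⟨h8, h9⟩ := phi_bij F b hb
    refine ⟨fun i => h8.sigma_factor i, ?_⟩
    have h10 : ∑' y : YY K, F (phi y).1 =
        ∑ i, ∑' x : {x : K // x ∈ jf i ∧ x ≠ 0}, F (idl K (jf i) x.1) := by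
      rw [h8.tsum_sigma, tsum_fintype]
      rfl
    have h11 : ((wu K : ℝ) : ℂ) ≠ 0 := by exact_mod_cast h2.ne'
    rw [← h10, h9, inv_mul_cancel_left₀ h11]

end Pool.Agent.H78.HH
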