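import Pool.Agent.H33.HH.TD
import Pool.Agent.H49.CV.CX

/-!
# The sum of the coefficients of the mollified sum
-/

set_option autoImplicit false

open NumberField Complex Filter Topology MeasureTheory
open scoped ContDiff nonZeroDivisors

namespace Pool.Agent.H78.HH

open Pool.Agent.H33.HH Pool.Agent.H28.RC Pool.Agent.H37.CV

section

variable {K : Type} [Field K] [NumberField K]

lemma cs_np_two (P : PrI K) : 2 ≤ np P := by
  unfold np nm
  have h0 : Ideal.absNorm P.1 ≠ 0 := fun h => P.2.2 (Ideal.absNorm_eq_zero_iff.1 h)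
  have h1 : Ideal.absNorm P.1 ≠ 1 := fun h => P.2.1.ne_top (Ideal.absNorm_eq_one_iff.1 h)
  have h2 : 2 ≤ Ideal.absNorm P.1 := by omega
  exact_mod_cast h2

lemma cs_nm_mul (I J : Ideal (𝓞 K)) : nm (I * J) = nm I * nm J := by
  unfold nm
  rw [map_mul]
  push_cast
  rfl

lemma cs_nm_pos {I : Ideal (𝓞 K)} (h : I ≠ ⊥) : 0 < nm I := by
  unfold nm
  have h0 : Ideal.absNorm I ≠ 0 := fun h1 => h (Ideal.absNorm_eq_zero_iff.1 h1)
  exact_mod_cast Nat.pos_of_ne_zero h0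

lemma cs_bdd {G : ℝ → ℝ} (hG : IsG G) : ∃ B : ℝ, 0 ≤ B ∧ ∀ u, |G u| ≤ B := by
  obtain ⟨B, hB⟩ := isCompact_Icc.exists_bound_of_continuousOn
    (f := G) (s := Set.Icc (1 : ℝ) 3) hG.smooth.continuous.continuousOn
  refine ⟨max B 1, le_max_of_le_right zero_le_one, fun u => ?_⟩
  rcases le_total u 1 with h | h
  · rw [hG.low u h, abs_one]
    exact le_max_right _ _
  · rcases le_total u 3 with h' | h'
    · exact (hB u ⟨h, h'⟩).trans (le_max_left _ _)
    · rw [hG.high u h', abs_zero]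
      exact le_max_of_le_right zero_le_one

lemma cs_fin (x : ℝ) : {I : Ideal (𝓞 K) | I ≠ ⊥ ∧ nm I ≤ x}.Finite :=
  (Ideal.finite_setOfPred_absNorm_le (S := 𝓞 K) ⌊x⌋₊).subset fun _ hI => Nat.le_floor hI.2

end

theorem pf_CSU (h1 : T_HLF) (h2 : T_IDF) (h3 : T_BQC) : T_CSU := by
  classical
  intro K _ _ _ P θ e G hG hθ he
  obtain ⟨Ch, hCh, hH⟩ := h1 K
  obtain ⟨B, hB, hGB⟩ := cs_bdd hG
  refine ⟨Ch * (B * (Ch * 3 ^ (1 / 2 : ℝ))), by positivity, fun Q hQ => ?_⟩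
  have hQ0 : 0 < Q := by linarith
  set y := Q ^ θ with hy
  set Z := Q ^ (1 + e) with hZ
  have hy1 : 1 ≤ y := Real.one_le_rpow hQ hθ.le
  have hZ1 : 1 ≤ Z := Real.one_le_rpow hQ (by linarith)
  obtain ⟨hfin, hsup, -⟩ := h3 K P y Z G hG hy1 (by linarith)
  set Sf := hfin.toFinset with hSf
  set M : Finset (Ideal (𝓞 K)) := (cs_fin (K := K) (3 * Z)).toFinset with hM
  have hmM : ∀ m, m ∈ M ↔ m ≠ ⊥ ∧ nm m ≤ 3 * Z := fun m => by rw [hM]; simp
  -- the inner sum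
  have hin : ∀ S ∈ DP K P y, ∑ n ∈ Sf.filter (fun n => idS S ∣ n), |gz G Z (nm n / nS np S)| ≤
      B * (Ch * 3 ^ (1 / 2 : ℝ)) * Z ^ (1 / 2 : ℝ) := by
    intro S hS
    obtain ⟨s1, -, s3, s4, -⟩ := h2 K P y hy1 S hS
    have s5 : nS np S ≠ 0 := by linarith
    have a1 : ∑ n ∈ Sf.filter (fun n => idS S ∣ n), |gz G Z (nm n / nS np S)| =
        ∑ n ∈ (Sf.filter (fun n => idS S ∣ n)).filter (fun n => nm n / nS np S ≤ 3 * Z),
          |gz G Z (nm n / nS np S)| := by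
      symm
      refine Finset.sum_filter_of_ne fun n _ hne => ?_
      by_contra hc
      rw [not_le] at hc
      refine hne ?_
      unfold gz
      have : 3 ≤ nm n / nS np S / Z := by
        rw [le_div_iff₀ (by linarith)]
        exact hc.le
      rw [hG.high _ this, mul_zero, abs_zero]
    have a2 : (Sf.filter (fun n => idS S ∣ n)).filter (fun n => nm n / nS np S ≤ 3 * Z) ⊆
        M.image (fun m => idS S * m) := by
      intro n hn
      rw [Finset.mem_filter, Finset.mem_filter] at hn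
      obtain ⟨⟨hn1, m, rfl⟩, hn3⟩ := hn
      rw [Finset.mem_image]
      refine ⟨m, ?_, rfl⟩
      rw [cs_nm_mul, s3, mul_div_cancel_left₀ _ s5] at hn3
      rw [hmM]
      refine ⟨?_, hn3⟩
      rintro rfl
      have := (hsup _ ((Set.Finite.mem_toFinset hfin).mp hn1)).1
      exact this (Ideal.mul_bot _)
    rw [a1]
    calc ∑ n ∈ (Sf.filter (fun n => idS S ∣ n)).filter (fun n => nm n / nS np S ≤ 3 * Z),
          |gz G Z (nm n / nS np S)|
        ≤ ∑ n ∈ M.image (fun m => idS S * m), |gz G Z (nm n / nS np S)| :=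
          Finset.sum_le_sum_of_subset_of_nonneg a2 fun _ _ _ => abs_nonneg _
      _ = ∑ m ∈ M, |gz G Z (nm (idS S * m) / nS np S)| :=
          Finset.sum_image fun a _ b _ hab => mul_left_cancel₀ s1 hab
      _ ≤ ∑ m ∈ M, B * nm m ^ (-(1 / 2) : ℝ) := by
          refine Finset.sum_le_sum fun m hm => ?_
          rw [cs_nm_mul, s3, mul_div_cancel_left₀ _ s5]
          have := cs_nm_pos ((hmM m).mp hm).1
          unfold gz
          rw [abs_mul, abs_of_pos (Real.rpow_pos_of_pos this _), mul_comm]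
          exact mul_le_mul_of_nonneg_right (hGB _) (Real.rpow_pos_of_pos this _).le
      _ = B * ∑ m ∈ M, nm m ^ (-(1 / 2) : ℝ) := by rw [Finset.mul_sum]
      _ ≤ B * (Ch * (3 * Z) ^ (1 / 2 : ℝ)) := by
          refine mul_le_mul_of_nonneg_left ?_ hB
          exact hH (3 * Z) M (by linarith) fun I hI => (hmM I).mp hI
      _ = B * (Ch * 3 ^ (1 / 2 : ℝ)) * Z ^ (1 / 2 : ℝ) := by
          rw [Real.mul_rpow (by norm_num) (by linarith)]
          ring
  -- the outer sum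
  have hout : ∑ S ∈ DP K P y, nS np S ^ (-(1 / 2) : ℝ) ≤ Ch * y ^ (1 / 2 : ℝ) := by
    have hinj : Set.InjOn (idS (K := K)) (DP K P y : Set (Finset (PrI K))) := by
      intro S hS T hT hST
      obtain ⟨-, -, -, -, -, s6, -⟩ := h2 K P y hy1 S hS
      obtain ⟨-, -, -, -, -, t6, -⟩ := h2 K P y hy1 T hT
      rw [← s6, ← t6, hST]
    calc ∑ S ∈ DP K P y, nS np S ^ (-(1 / 2) : ℝ)
        = ∑ S ∈ DP K P y, nm (idS S) ^ (-(1 / 2) : ℝ) := by
          refine Finset.sum_congr rfl fun S hS => ?_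
          rw [(h2 K P y hy1 S hS).2.2.1]
      _ = ∑ I ∈ (DP K P y).image (idS (K := K)), nm I ^ (-(1 / 2) : ℝ) := by
          rw [Finset.sum_image hinj]
      _ ≤ Ch * y ^ (1 / 2 : ℝ) := by
          refine hH y _ hy1 fun I hI => ?_
          obtain ⟨S, hS, rfl⟩ := Finset.mem_image.mp hI
          obtain ⟨s1, -, s3, -, s5, -⟩ := h2 K P y hy1 S hS
          exact ⟨s1, by rw [s3]; exact s5⟩
  -- the coefficients
  have hc : ∀ n ∈ Sf, |cfm P y Z G n| ≤ ∑ S ∈ (DP K P y).filter (fun S => idS S ∣ n),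
      nS np S ^ (-(1 / 2) : ℝ) * |gz G Z (nm n / nS np S)| := by
    intro n hn
    have hn1 := hsup n ((Set.Finite.mem_toFinset hfin).mp hn)
    unfold cfm
    rw [if_pos ⟨hn1.1, hn1.2.1⟩]
    refine (Finset.abs_sum_le_sum_abs _ _).trans (Finset.sum_le_sum fun S hS => ?_)
    have hS1 := (Finset.mem_filter.mp hS).1
    have hlm : |lm K P y S| ≤ 1 := by
      unfold lm
      refine (Pool.Agent.H49.CV.pf_CX (PrI K) np (AP K P y) y cs_np_two hy1).2.2 S ?_
      unfold DP DS at hS1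
      exact Finset.mem_powerset.mp (Finset.mem_filter.mp hS1).1
    have hnS : 0 < nS np S ^ (-(1 / 2) : ℝ) :=
      Real.rpow_pos_of_pos (by linarith [(h2 K P y hy1 S hS1).2.2.2.1]) _
    rw [abs_mul, abs_mul, abs_of_pos hnS]
    refine mul_le_mul_of_nonneg_right ?_ (abs_nonneg _)
    exact mul_le_of_le_one_left hnS.le hlm
  have hfs : ∑ᶠ n : Ideal (𝓞 K), |cfm P y Z G n| = ∑ n ∈ Sf, |cfm P y Z G n| := by
    refine finsum_eq_sum_of_support_subset _ ?_
    intro n hn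
    rw [Finset.mem_coe, hSf, Set.Finite.mem_toFinset]
    exact fun h0 => hn (by beta_reduce; rw [h0, abs_zero])
  rw [hfs]
  calc ∑ n ∈ Sf, |cfm P y Z G n|
      ≤ ∑ n ∈ Sf, ∑ S ∈ (DP K P y).filter (fun S => idS S ∣ n),
          nS np S ^ (-(1 / 2) : ℝ) * |gz G Z (nm n / nS np S)| := Finset.sum_le_sum hc
    _ = ∑ S ∈ DP K P y, ∑ n ∈ Sf.filter (fun n => idS S ∣ n),
          nS np S ^ (-(1 / 2) : ℝ) * |gz G Z (nm n / nS np S)| := by
        simp_rw [Finset.sum_filter]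
        rw [Finset.sum_comm]
    _ = ∑ S ∈ DP K P y, nS np S ^ (-(1 / 2) : ℝ) *
          ∑ n ∈ Sf.filter (fun n => idS S ∣ n), |gz G Z (nm n / nS np S)| := by
        refine Finset.sum_congr rfl fun S _ => ?_
        rw [Finset.mul_sum]
    _ ≤ ∑ S ∈ DP K P y, nS np S ^ (-(1 / 2) : ℝ) *
          (B * (Ch * 3 ^ (1 / 2 : ℝ)) * Z ^ (1 / 2 : ℝ)) := by
        refine Finset.sum_le_sum fun S hS => mul_le_mul_of_nonneg_left (hin S hS) ?_
        exact (Real.rpow_pos_of_pos (by linarith [(h2 K P y hy1 S hS).2.2.2.1]) _).le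
    _ = (∑ S ∈ DP K P y, nS np S ^ (-(1 / 2) : ℝ)) *
          (B * (Ch * 3 ^ (1 / 2 : ℝ)) * Z ^ (1 / 2 : ℝ)) := by rw [Finset.sum_mul]
    _ ≤ Ch * y ^ (1 / 2 : ℝ) * (B * (Ch * 3 ^ (1 / 2 : ℝ)) * Z ^ (1 / 2 : ℝ)) :=
        mul_le_mul_of_nonneg_right hout (by positivity)
    _ = Ch * (B * (Ch * 3 ^ (1 / 2 : ℝ))) * (y ^ (1 / 2 : ℝ) * Z ^ (1 / 2 : ℝ)) := by ring
    _ = Ch * (B * (Ch * 3 ^ (1 / 2 : ℝ))) * Q ^ ((1 + θ + e) / 2) := by
        rw [hy, hZ, ← Real.rpow_mul hQ0.le, ← Real.rpow_mul hQ0.le, ← Real.rpow_add hQ0]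
        congr 2
        ring

end Pool.Agent.H78.HH
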