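import Pool.Agent.H33.HH.TC

/-!
# The terms with the limit cancel
-/

set_option autoImplicit false

open NumberField Complex Filter Topology MeasureTheory
open scoped ContDiff nonZeroDivisors

namespace Pool.Agent.H78.HH

open Pool.Agent.H33.HH Pool.Agent.H28.RC Pool.Agent.H37.CV

section

variable {K : Type} [Field K] [NumberField K]

lemma in_np_one (p : PrI K) : 1 ≤ np p := by
  unfold np nm
  have h : Ideal.absNorm p.1 ≠ 0 := fun h => p.2.2 (Ideal.absNorm_eq_zero_iff.1 h)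
  exact_mod_cast Nat.one_le_iff_ne_zero.2 h

lemma in_nS_one (A : Finset (PrI K)) : 1 ≤ nS np A := by
  unfold nS
  calc (1 : ℝ) = ∏ p ∈ A, 1 := by simp
    _ ≤ ∏ p ∈ A, np p := Finset.prod_le_prod (fun _ _ => zero_le_one) fun p _ => in_np_one p

lemma in_Cp_mul {P : ℝ} {I J : Ideal (𝓞 K)} (hI : Cp P I) (hJ : Cp P J) : Cp P (I * J) := by
  intro p hp
  rcases p.2.1.mul_le.mp hp with h | h
  · exact hI p h
  · exact hJ p h

/-- the sum over the subsets of the small primes -/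
noncomputable def kp (P : ℝ) (k : Ideal (𝓞 K)) : ℝ :=
  ∑ R₀ ∈ (SP K P).powerset, hk P k R₀ / nS np R₀

open scoped Classical in
lemma in_nab [IQ K] (h3 : T_HSU) (h4 : T_IDF) (P Z Q : ℝ) (G : ℝ → ℝ) (J : ℝ → ℝ) (c : ℝ)
    (k : Ideal (𝓞 K)) (y : ℝ) (hy : 1 ≤ y) (S T : Finset (PrI K)) (hS : S ∈ DP K P y)
    (hT : T ∈ DP K P y) (hk : Sm' P k) :
    Nab P Z Q G k S (idS T) (fun _ t => c * J t) =
      (2 / sd K * (1 / nm k) * c * kp P k * Q) * (1 / nS np S *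
        sumC P fun n => G (nm n / Z) * J (nS np T * nm n / (nS np S * Z)) *
          ∏ p ∈ S, ((if idS T * n ≤ p.1 then 1 else 0) + 1 - 1 / np p)) := by
  obtain ⟨hT1, hT2, hT3, -⟩ := h4 K P y hy T hT
  unfold Nab sumC
  rw [← tsum_mul_left, ← tsum_mul_left, ← tsum_mul_left]
  refine tsum_congr fun I => ?_
  split_ifs with h
  · have h5 := (h3 K P y hy S hS (idS T * I.1) k (mul_ne_zero hT1 I.2) (in_Cp_mul hT2 h)
      hk).2.2.2
    beta_reduce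
    rw [← h5, hT3]
    have h6 : ∑ R₁ ∈ S.powerset, ∑ R₀ ∈ (SP K P).powerset, ha R₁ (idS T * I.1) *
        Pool.Agent.H33.HH.hk P k R₀ * (Q / (nS np R₁ * nS np R₀)) *
        (c * J (nS np T * nm I.1 / (nS np S * Z))) =
        (∑ R₁ ∈ S.powerset, ha R₁ (idS T * I.1) / nS np R₁) *
          kp P k * (Q * c * J (nS np T * nm I.1 / (nS np S * Z))) := by
      unfold kp
      rw [Finset.sum_mul_sum, Finset.sum_mul]
      refine Finset.sum_congr rfl fun R₁ _ => ?_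
      rw [Finset.sum_mul]
      refine Finset.sum_congr rfl fun R₀ _ => ?_
      ring
    rw [h6]
    ring
  · ring

end

theorem pf_INF (h1 : T_IN1) (h2 : T_JID) (h3 : T_HSU) (h4 : T_IDF) : T_INF := by
  classical
  intro K _ _ _ P W G H k θ e hP hW hG hH hk hpar
  obtain ⟨C, Q₁, hC, hQ₁, hIN⟩ := h1 K P G H θ e hP hG hH hpar
  refine ⟨|2 / sd K * (1 / nm k) * Thi K W * kp P k| * (2 * C), Q₁, by positivity, hQ₁, ?_⟩
  intro Q hQ S hS T hT
  have hQ1 : 1 ≤ Q := hQ₁.trans hQ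
  have hQ0 : 0 < Q := by linarith
  have hy : 1 ≤ Q ^ θ := Real.one_le_rpow hQ1 hpar.θpos.le
  have hyQ : Q ^ θ ≤ Q := by
    calc Q ^ θ ≤ Q ^ (1 : ℝ) :=
          Real.rpow_le_rpow_of_exponent_le hQ1 (by linarith [hpar.le, hpar.epos])
      _ = Q := Real.rpow_one Q
  obtain ⟨-, -, -, hS1, hS2, -⟩ := h4 K P (Q ^ θ) hy S hS
  obtain ⟨-, -, -, hT1, hT2, -⟩ := h4 K P (Q ^ θ) hy T hT
  have hI1 := hIN Q hQ S hS T hT
  have hI2 := hIN Q hQ T hT S hS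
  rw [in_nab h3 h4 P (Q ^ (1 + e)) Q G (Ji G H) (Thi K W) k (Q ^ θ) hy S T hS hT hk,
    in_nab h3 h4 P (Q ^ (1 + e)) Q G (Ji G H) (Thi K W) k (Q ^ θ) hy T S hT hS hk]
  set X := sumC P fun n => G (nm n / Q ^ (1 + e)) *
      Ji G H (nS np T * nm n / (nS np S * Q ^ (1 + e))) *
      ∏ p ∈ S, ((if idS T * n ≤ p.1 then 1 else 0) + 1 - 1 / np p) with hX
  set Y := sumC P fun n => G (nm n / Q ^ (1 + e)) *
      Ji G H (nS np S * nm n / (nS np T * Q ^ (1 + e))) *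
      ∏ p ∈ T, ((if idS S * n ≤ p.1 then 1 else 0) + 1 - 1 / np p) with hY
  have hJ := h2 G H hG hH (nS np S) (nS np T) (by linarith) (by linarith)
  rw [Finset.inter_comm T S] at hI2
  set I₁ := ∫ t in Set.Ioi (0 : ℝ), G t * Ji G H (nS np T / nS np S * t)
  set I₂ := ∫ t in Set.Ioi (0 : ℝ), G t * Ji G H (nS np S / nS np T * t)
  set D := rk K P * Q ^ (1 + e) * (∏ p ∈ S ∩ T, (2 - 1 / np p))
  set B := 2 / sd K * (1 / nm k) * Thi K W * kp P k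
  set a := nS np S
  set b := nS np T
  have ha0 : 0 < a := by linarith
  have hb0 : 0 < b := by linarith
  have e1 : B * Q * (1 / a * X) + B * Q * (1 / b * Y) =
      B * Q * (a⁻¹ * (X - D * I₁) + b⁻¹ * (Y - D * I₂)) + B * Q * D * (a⁻¹ * I₁ + b⁻¹ * I₂) := by
    ring
  rw [e1, hJ, mul_zero, add_zero, abs_mul, abs_mul, abs_of_pos hQ0]
  have e2 : |a⁻¹ * (X - D * I₁) + b⁻¹ * (Y - D * I₂)| ≤ 2 * (C * Q ^ (-3 : ℝ)) := by
    have ha1 : a⁻¹ ≤ 1 := inv_le_one_of_one_le₀ hS1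
    have hb1 : b⁻¹ ≤ 1 := inv_le_one_of_one_le₀ hT1
    calc |a⁻¹ * (X - D * I₁) + b⁻¹ * (Y - D * I₂)|
        ≤ |a⁻¹ * (X - D * I₁)| + |b⁻¹ * (Y - D * I₂)| := abs_add_le _ _
      _ = a⁻¹ * |X - D * I₁| + b⁻¹ * |Y - D * I₂| := by
          rw [abs_mul, abs_mul, abs_of_pos (inv_pos.mpr ha0), abs_of_pos (inv_pos.mpr hb0)]
      _ ≤ 1 * (C * Q ^ (-3 : ℝ)) + 1 * (C * Q ^ (-3 : ℝ)) :=
          add_le_add (mul_le_mul ha1 hI1 (abs_nonneg _) zero_le_one)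
            (mul_le_mul hb1 hI2 (abs_nonneg _) zero_le_one)
      _ = 2 * (C * Q ^ (-3 : ℝ)) := by ring
  have e3 : Q * Q ^ (-3 : ℝ) ≤ Er Q 1 S T := by
    unfold Er
    have f1 : Q ^ (2 - 1 : ℝ) = Q := by norm_num
    rw [f1]
    refine mul_le_mul_of_nonneg_left ?_ hQ0.le
    have f2 : Q ^ (-3 : ℝ) ≤ (Q * Q)⁻¹ := by
      calc Q ^ (-3 : ℝ) ≤ Q ^ (-2 : ℝ) :=
            Real.rpow_le_rpow_of_exponent_le hQ1 (by norm_num)
        _ = (Q * Q)⁻¹ := by rw [Real.rpow_neg hQ0.le, Real.rpow_two, sq]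
    refine f2.trans ?_
    rw [inv_eq_one_div]
    exact div_le_div₀ (by linarith [in_nS_one (S ∩ T)]) (in_nS_one (S ∩ T)) (mul_pos ha0 hb0)
      (mul_le_mul (hS2.trans hyQ) (hT2.trans hyQ) hb0.le hQ0.le)
  calc |B| * Q * |a⁻¹ * (X - D * I₁) + b⁻¹ * (Y - D * I₂)|
      ≤ |B| * Q * (2 * (C * Q ^ (-3 : ℝ))) :=
        mul_le_mul_of_nonneg_left e2 (by positivity)
    _ = |B| * (2 * C) * (Q * Q ^ (-3 : ℝ)) := by ring
    _ ≤ |B| * (2 * C) * Er Q 1 S T := mul_le_mul_of_nonneg_left e3 (by positivity)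

end Pool.Agent.H78.HH
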