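import Pool.Agent.H33.HH.TD
import Pool.Agent.H86.CV.DV

/-!
# The invariant characters are negligible
-/

set_option autoImplicit false

open NumberField Complex Filter Topology MeasureTheory
open scoped ContDiff nonZeroDivisors

namespace Pool.Agent.H78.HH

open Pool.Agent.H33.HH Pool.Agent.H28.RC Pool.Agent.H37.CV

theorem pf_INV (h1 : T_IV1) (h2 : T_IV2) (h3 : T_PRB) : T_INV := by
  classical
  intro K _ _ hK
  obtain ⟨D, hD, hDχ⟩ := h1 K hK
  obtain ⟨C₁, hC₁, hn⟩ := h2 D hD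
  obtain ⟨C₂, hC₂, hid, -⟩ := (Pool.Agent.H86.CV.pf_DV K).1 (1 / 16) (by norm_num)
  set R : ℝ := 2 ^ InfinitePlace.nrRealPlaces K * classNumber K with hR
  have hR0 : 0 ≤ R := by positivity
  refine ⟨C₁ * C₂ * R, by positivity, fun x hx => ?_⟩
  have hx0 : 0 < x := by linarith
  set N : Set ℕ := {n : ℕ | 1 ≤ n ∧ (n : ℝ) ≤ x ∧
    ∀ p : ℕ, p.Prime → ¬ p ∣ D → p ∣ n → p ^ 2 ∣ n} with hN
  have hNfin : N.Finite := (Set.finite_Icc 1 ⌊x⌋₊).subset
    fun n hn => ⟨hn.1, Nat.le_floor hn.2.1⟩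
  have hIfin : {I : Ideal (𝓞 K) | Ideal.absNorm I ∈ N}.Finite :=
    (Ideal.finite_setOfPred_absNorm_le (S := 𝓞 K) ⌊x⌋₊).subset
      fun I hI => Nat.le_floor hI.2.1
  set F : Finset (Ideal (𝓞 K)) := hIfin.toFinset with hF
  have hmF : ∀ I, I ∈ F ↔ Ideal.absNorm I ∈ N := fun I => by rw [hF]; simp
  -- the number of the ideals
  have hFc : (F.card : ℝ) ≤ C₁ * x ^ (5 / 8 : ℝ) * (C₂ * x ^ (1 / 16 : ℝ)) := by
    have e1 : F.card = ∑ n ∈ hNfin.toFinset, (F.filter fun I => Ideal.absNorm I = n).card :=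
      Finset.card_eq_sum_card_fiberwise fun I hI => by
        rw [Finset.mem_coe, Set.Finite.mem_toFinset]
        exact (hmF I).mp hI
    rw [e1]
    push_cast
    calc ∑ n ∈ hNfin.toFinset, ((F.filter fun I => Ideal.absNorm I = n).card : ℝ)
        ≤ ∑ _n ∈ hNfin.toFinset, C₂ * x ^ (1 / 16 : ℝ) := by
          refine Finset.sum_le_sum fun n hn => ?_
          rw [Set.Finite.mem_toFinset] at hn
          refine (hid n hn.1 _ fun I hI => (Finset.mem_filter.mp hI).2).trans ?_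
          refine mul_le_mul_of_nonneg_left ?_ (by linarith)
          exact Real.rpow_le_rpow (Nat.cast_nonneg _) hn.2.1 (by norm_num)
      _ = (hNfin.toFinset.card : ℝ) * (C₂ * x ^ (1 / 16 : ℝ)) := by
          rw [Finset.sum_const, nsmul_eq_mul]
      _ ≤ C₁ * x ^ (5 / 8 : ℝ) * (C₂ * x ^ (1 / 16 : ℝ)) := by
          refine mul_le_mul_of_nonneg_right ?_ (by positivity)
          rw [← Set.ncard_eq_toFinset_card N hNfin]
          exact hn x hx
  -- the characters of one conductor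
  have hP : ∀ f ∈ F, (Pr K f).Finite ∧ ((Pr K f).ncard : ℝ) ≤ R * x := by
    intro f hf
    have hf1 := (hmF f).mp hf
    have hf0 : f ≠ ⊥ := by
      rintro rfl
      have := hf1.1
      rw [Ideal.absNorm_bot] at this
      omega
    obtain ⟨e1, e2⟩ := h3 K f 1 1 hf0 le_rfl (fun i hi hi' => by omega)
    refine ⟨e1, ?_⟩
    have e3 : ((Pr K f).ncard : ℝ) ≤ R * Ideal.absNorm f := by
      rw [hR]
      rw [one_mul] at e2
      exact_mod_cast e2
    exact e3.trans (mul_le_mul_of_nonneg_left hf1.2.1 hR0)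
  set g : Ideal (𝓞 K) → Finset (RCC K) := fun f =>
    if h : (Pr K f).Finite then h.toFinset else ∅ with hg
  have hsub : {χ : RCC K | ¬ NotInv χ ∧ nm χ.f ≤ x} ⊆ ((F.biUnion g : Finset (RCC K)) : Set (RCC K)) := by
    rintro χ ⟨e1, e2⟩
    rw [Finset.mem_coe, Finset.mem_biUnion]
    have e3 : χ.f ∈ F := by
      rw [hmF]
      refine ⟨?_, e2, hDχ χ e1⟩
      exact Nat.one_le_iff_ne_zero.2 fun h => χ.f_ne (Ideal.absNorm_eq_zero_iff.1 h)
    refine ⟨χ.f, e3, ?_⟩
    rw [hg]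
    simp only [(hP χ.f e3).1, dite_true, Set.Finite.mem_toFinset]
    rfl
  calc ({χ : RCC K | ¬ NotInv χ ∧ nm χ.f ≤ x}.ncard : ℝ)
      ≤ ((F.biUnion g).card : ℝ) := by
        rw [← Set.ncard_coe_finset]
        exact_mod_cast Set.ncard_le_ncard hsub (Finset.finite_toSet _)
    _ ≤ ∑ f ∈ F, ((g f).card : ℝ) := by exact_mod_cast Finset.card_biUnion_le
    _ ≤ ∑ _f ∈ F, R * x := by
        refine Finset.sum_le_sum fun f hf => ?_
        have e1 := hP f hf
        have e2 : (g f).card = (Pr K f).ncard := by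
          rw [hg]
          simp only [e1.1, dite_true]
          exact (Set.ncard_eq_toFinset_card _ e1.1).symm
        rw [e2]
        exact e1.2
    _ = F.card * (R * x) := by rw [Finset.sum_const, nsmul_eq_mul]
    _ ≤ C₁ * x ^ (5 / 8 : ℝ) * (C₂ * x ^ (1 / 16 : ℝ)) * (R * x) :=
        mul_le_mul_of_nonneg_right hFc (by positivity)
    _ = C₁ * C₂ * R * (x ^ (5 / 8 : ℝ) * x ^ (1 / 16 : ℝ) * x ^ (1 : ℝ)) := by
        rw [Real.rpow_one]; ring
    _ = C₁ * C₂ * R * x ^ (27 / 16 : ℝ) := by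
        rw [← Real.rpow_add hx0, ← Real.rpow_add hx0]
        norm_num
    _ ≤ C₁ * C₂ * R * x ^ (7 / 4 : ℝ) := by
        refine mul_le_mul_of_nonneg_left ?_ (by positivity)
        exact Real.rpow_le_rpow_of_exponent_le hx (by norm_num)

end Pool.Agent.H78.HH
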